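import Pool.Agent.H10.EH.FC

/-!
# EHP: bounds for the first and second derivatives of `F_A`, `F_B` near the singular point `(p, 0)`

For `0 < g ≤ 1`, `rho = e^l/4 ≤ P`:
`|F_g F_ll| ≤ K rho g / R^3`, `F_l^2 ≤ K rho^2 / R`, `F_g^2 ≤ K / R`, and `R ≥ c (|rho - p| + g)`.
-/

set_option autoImplicit false

namespace Pool.Agent.H62.EH

open Real Pool.EH

/-! ### algebra -/

/-- `T^2 ≥ 2 (X - C)`, `T^2 ≥ X (X - C)`, `T^2 ≥ (X - C)^2` -/
theorem alg_T {X T C : ℝ} (hT : T ^ 2 = X ^ 2 - 1) (hC : 1 ≤ C) (hXC : C ≤ X) :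
    2 * (X - C) ≤ T ^ 2 ∧ X * (X - C) ≤ T ^ 2 ∧ (X - C) ^ 2 ≤ T ^ 2 := by
  rw [hT]
  refine ⟨?_, ?_, ?_⟩
  · nlinarith
  · nlinarith
  · nlinarith

theorem alg_A {ρ C S R X T p Fl Fg Fll : ℝ} (hρ : 0 < ρ) (hS : 0 < S) (hR : 0 < R) (hT : 0 < T)
    (hXC : C ≤ X) (hC : 1 ≤ C) (hTX : T ^ 2 = X ^ 2 - 1) (hp : 0 ≤ p)
    (hY : p * (X - C) ≤ 2 * R)
    (e1 : Fl = ρ * (X - C) / (R * T)) (e2 : Fg = S * (C - ρ) / (R * T))
    (e3 : Fll = (ρ * (X - C) + 2 * ρ * T * Fl - (p * T ^ 2 + R * X) * Fl ^ 2) / (R * T)) :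
    |Fg * Fll| ≤ ρ * S * |C - ρ| / R ^ 2 * (1 + 5 * ρ / R) := by
  obtain ⟨h1, h2, h3⟩ := alg_T hTX hC hXC
  have hX : 0 < X := by linarith
  have hXC0 : 0 ≤ X - C := by linarith
  have ha0 : 0 ≤ (X - C) / T ^ 2 := by positivity
  have ha1 : X * ((X - C) / T ^ 2) ≤ 1 := by
    rw [← mul_div_assoc, div_le_one (by positivity)]
    exact h2
  have ha2 : (X - C) / T ^ 2 ≤ 1 := by
    rw [div_le_one (by positivity)]
    linarith
  have hb0 : 0 ≤ p * (X - C) / R := by positivity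
  have hb1 : p * (X - C) / R ≤ 2 := by
    rw [div_le_iff₀ hR]
    linarith
  have key : Fg * Fll = (ρ * S / R ^ 2) * ((C - ρ) * ((X - C) / T ^ 2)) *
      (1 + 2 * (ρ / R) - (ρ / R) * (p * (X - C) / R) - (ρ / R) * (X * ((X - C) / T ^ 2))) := by
    rw [e3, e2, e1]
    field_simp
    ring
  set a := (X - C) / T ^ 2 with ha
  set b := p * (X - C) / R with hb
  have hr0 : 0 < ρ / R := by positivity
  have hXa : 0 ≤ X * a := by positivity
  rw [key, abs_mul, abs_mul, abs_of_pos (show 0 < ρ * S / R ^ 2 by positivity), abs_mul,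
    abs_of_nonneg ha0]
  have hbr : |1 + 2 * (ρ / R) - (ρ / R) * b - (ρ / R) * (X * a)| ≤ 1 + 5 * ρ / R := by
    rw [mul_div_assoc, abs_le]
    constructor <;> nlinarith
  calc ρ * S / R ^ 2 * (|C - ρ| * a) * |1 + 2 * (ρ / R) - (ρ / R) * b - (ρ / R) * (X * a)|
      ≤ ρ * S / R ^ 2 * (|C - ρ| * 1) * (1 + 5 * ρ / R) := by gcongr
    _ = ρ * S * |C - ρ| / R ^ 2 * (1 + 5 * ρ / R) := by ring

theorem alg_B {ρ C S R X T q Fl Fg Fll : ℝ} (hρ : 0 < ρ) (hS : 0 < S) (hR : 0 < R) (hT : 0 < T)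
    (hXC : C ≤ X) (hC : 1 ≤ C) (hTX : T ^ 2 = X ^ 2 - 1) (hq : 0 ≤ q)
    (hZ : q * (X - C) ≤ 2 * R)
    (e1 : Fl = -(ρ * (X - C)) / (R * T)) (e2 : Fg = S * (X - C + ρ) / (R * T))
    (e3 : Fll = (-(ρ * (X - C)) - 2 * ρ * T * Fl - (q * T ^ 2 + R * X) * Fl ^ 2) / (R * T)) :
    |Fg * Fll| ≤ ρ * S * (1 + ρ) / R ^ 2 * (1 + 5 * ρ / R) := by
  obtain ⟨h1, h2, h3⟩ := alg_T hTX hC hXC
  have hX : 0 < X := by linarith
  have hXC0 : 0 ≤ X - C := by linarith
  have ha0 : 0 ≤ (X - C) / T ^ 2 := by positivity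
  have ha1 : X * ((X - C) / T ^ 2) ≤ 1 := by
    rw [← mul_div_assoc, div_le_one (by positivity)]
    exact h2
  have ha2 : (X - C) / T ^ 2 ≤ 1 := by
    rw [div_le_one (by positivity)]
    linarith
  have ha3 : (X - C + ρ) * ((X - C) / T ^ 2) ≤ 1 + ρ := by
    have h4 : (X - C) * ((X - C) / T ^ 2) ≤ 1 := by
      rw [← mul_div_assoc, div_le_one (by positivity)]
      nlinarith
    nlinarith
  have hb0 : 0 ≤ q * (X - C) / R := by positivity
  have hb1 : q * (X - C) / R ≤ 2 := by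
    rw [div_le_iff₀ hR]
    linarith
  have key : Fg * Fll = -((ρ * S / R ^ 2) * ((X - C + ρ) * ((X - C) / T ^ 2)) *
      (1 - 2 * (ρ / R) + (ρ / R) * (q * (X - C) / R) + (ρ / R) * (X * ((X - C) / T ^ 2)))) := by
    rw [e3, e2, e1]
    field_simp
    ring
  set a := (X - C) / T ^ 2 with ha
  set b := q * (X - C) / R with hb
  have hr0 : 0 < ρ / R := by positivity
  have hXa : 0 ≤ X * a := by positivity
  have hca : 0 ≤ (X - C + ρ) * a := by positivity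
  rw [key, abs_neg, abs_mul, abs_mul, abs_of_pos (show 0 < ρ * S / R ^ 2 by positivity),
    abs_of_nonneg hca]
  have hbr : |1 - 2 * (ρ / R) + (ρ / R) * b + (ρ / R) * (X * a)| ≤ 1 + 5 * ρ / R := by
    rw [mul_div_assoc, abs_le]
    constructor <;> nlinarith
  calc ρ * S / R ^ 2 * ((X - C + ρ) * a) * |1 - 2 * (ρ / R) + (ρ / R) * b + (ρ / R) * (X * a)|
      ≤ ρ * S / R ^ 2 * (1 + ρ) * (1 + 5 * ρ / R) := by gcongr
    _ = ρ * S * (1 + ρ) / R ^ 2 * (1 + 5 * ρ / R) := by ring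

/-! ### facts on `R`, `X = cosh F` -/

section
variable {p : ℝ} (hp : 0 < p) (hp1 : p < 1)
include hp hp1

theorem abs_le_RR (l g : ℝ) : |rh l - p * Real.cosh g| ≤ RR p l g := by
  unfold RR
  apply Real.abs_le_sqrt
  have h2 : 0 < 1 - p := by linarith
  have : 0 ≤ p * (1 - p) * Real.sinh g ^ 2 := by positivity
  linarith

theorem Y_nonneg (l g : ℝ) : 0 ≤ RR p l g + rh l - p * Real.cosh g := by
  have := abs_le.1 (abs_le_RR hp hp1 l g)
  linarith [this.1]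

theorem Z_nonneg (l g : ℝ) : 0 ≤ RR p l g - rh l + p * Real.cosh g := by
  have := abs_le.1 (abs_le_RR hp hp1 l g)
  linarith [this.2]

theorem YZ (l g : ℝ) : (RR p l g + rh l - p * Real.cosh g) * (RR p l g - rh l + p * Real.cosh g) =
    p * (1 - p) * Real.sinh g ^ 2 := by
  have := RR_sq hp hp1 l g
  nlinarith

theorem XC_A (l : ℝ) {g : ℝ} (hg : 0 < g) :
    p * (Real.cosh (FA p l g) - Real.cosh g) = RR p l g + rh l - p * Real.cosh g := by
  rw [RR_eq_A hp hp1 l hg]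
  ring

theorem XC_B (l : ℝ) {g : ℝ} (hg : 0 < g) :
    (1 - p) * (Real.cosh (FB p l g) - Real.cosh g) = RR p l g - rh l + p * Real.cosh g := by
  rw [RR_eq_B hp hp1 l hg]
  ring

theorem C_le_XA (l : ℝ) {g : ℝ} (hg : 0 < g) : Real.cosh g ≤ Real.cosh (FA p l g) := by
  have h := XC_A hp hp1 l hg
  have h2 := Y_nonneg hp hp1 l g
  rw [← h] at h2
  have := nonneg_of_mul_nonneg_right h2 hp
  linarith

theorem C_le_XB (l : ℝ) {g : ℝ} (hg : 0 < g) : Real.cosh g ≤ Real.cosh (FB p l g) := by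
  have h := XC_B hp hp1 l hg
  have h2 := Z_nonneg hp hp1 l g
  rw [← h] at h2
  have := nonneg_of_mul_nonneg_right h2 (by linarith)
  linarith

theorem XC_A_le (l : ℝ) {g : ℝ} (hg : 0 < g) :
    p * (Real.cosh (FA p l g) - Real.cosh g) ≤ 2 * RR p l g := by
  rw [XC_A hp hp1 l hg]
  linarith [Z_nonneg hp hp1 l g]

theorem XC_B_le (l : ℝ) {g : ℝ} (hg : 0 < g) :
    (1 - p) * (Real.cosh (FB p l g) - Real.cosh g) ≤ 2 * RR p l g := by
  rw [XC_B hp hp1 l hg]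
  linarith [Y_nonneg hp hp1 l g]

theorem S_sq_A (l : ℝ) {g : ℝ} (hg : 0 < g) :
    (1 - p) * Real.sinh g ^ 2 ≤ 2 * RR p l g * (Real.cosh (FA p l g) - Real.cosh g) := by
  have h := YZ hp hp1 l g
  rw [← XC_A hp hp1 l hg] at h
  have h2 : (1 - p) * Real.sinh g ^ 2 =
      (Real.cosh (FA p l g) - Real.cosh g) * (RR p l g - rh l + p * Real.cosh g) := by
    have : p * ((1 - p) * Real.sinh g ^ 2) =
      p * ((Real.cosh (FA p l g) - Real.cosh g) * (RR p l g - rh l + p * Real.cosh g)) := by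
      linarith
    exact mul_left_cancel₀ hp.ne' this
  rw [h2, mul_comm]
  have h3 : 0 ≤ Real.cosh (FA p l g) - Real.cosh g := by linarith [C_le_XA hp hp1 l hg]
  exact mul_le_mul_of_nonneg_right (by linarith [Y_nonneg hp hp1 l g]) h3

theorem S_sq_B (l : ℝ) {g : ℝ} (hg : 0 < g) :
    p * Real.sinh g ^ 2 ≤ 2 * RR p l g * (Real.cosh (FB p l g) - Real.cosh g) := by
  have h := YZ hp hp1 l g
  rw [← XC_B hp hp1 l hg] at h
  have hq : (0 : ℝ) < 1 - p := by linarith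
  have h2 : p * Real.sinh g ^ 2 =
      (Real.cosh (FB p l g) - Real.cosh g) * (RR p l g + rh l - p * Real.cosh g) := by
    have : (1 - p) * (p * Real.sinh g ^ 2) =
      (1 - p) * ((Real.cosh (FB p l g) - Real.cosh g) * (RR p l g + rh l - p * Real.cosh g)) := by
      linarith
    exact mul_left_cancel₀ hq.ne' this
  rw [h2, mul_comm]
  have h3 : 0 ≤ Real.cosh (FB p l g) - Real.cosh g := by linarith [C_le_XB hp hp1 l hg]
  exact mul_le_mul_of_nonneg_right (by linarith [Z_nonneg hp hp1 l g]) h3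

omit hp hp1 in
theorem sinh_FA_sq (l g : ℝ) : Real.sinh (FA p l g) ^ 2 = Real.cosh (FA p l g) ^ 2 - 1 := by
  rw [Real.sinh_sq]

omit hp hp1 in
theorem sinh_FB_sq (l g : ℝ) : Real.sinh (FB p l g) ^ 2 = Real.cosh (FB p l g) ^ 2 - 1 := by
  rw [Real.sinh_sq]

/-! ### the bounds -/

theorem FAg_FAll_le (l : ℝ) {g : ℝ} (hg : 0 < g) :
    |FAg p l g * FAll p l g| ≤
      rh l * Real.sinh g * |Real.cosh g - rh l| / RR p l g ^ 2 * (1 + 5 * rh l / RR p l g) := by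
  refine alg_A (T := Real.sinh (FA p l g)) (X := Real.cosh (FA p l g)) (Fl := FAl p l g)
    (rh_pos l) (Real.sinh_pos_iff.2 hg) (RR_pos hp hp1 l hg) (sinh_FA_pos hp hp1 l hg)
    (C_le_XA hp hp1 l hg) (Real.one_le_cosh g) (sinh_FA_sq l g) hp.le
    (XC_A_le hp hp1 l hg) rfl rfl rfl

theorem FBg_FBll_le (l : ℝ) {g : ℝ} (hg : 0 < g) :
    |FBg p l g * FBll p l g| ≤
      rh l * Real.sinh g * (1 + rh l) / RR p l g ^ 2 * (1 + 5 * rh l / RR p l g) := by
  refine alg_B (T := Real.sinh (FB p l g)) (X := Real.cosh (FB p l g)) (Fl := FBl p l g)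
    (rh_pos l) (Real.sinh_pos_iff.2 hg) (RR_pos hp hp1 l hg) (sinh_FB_pos hp hp1 l hg)
    (C_le_XB hp hp1 l hg) (Real.one_le_cosh g) (sinh_FB_sq l g) (q := 1 - p) (by linarith)
    (XC_B_le hp hp1 l hg) rfl rfl rfl

theorem FAl_sq_le (l : ℝ) {g : ℝ} (hg : 0 < g) :
    FAl p l g ^ 2 ≤ 2 / p * rh l ^ 2 / RR p l g := by
  have hR := RR_pos hp hp1 l hg
  have hT := sinh_FA_pos hp hp1 l hg
  have hXC0 : 0 ≤ Real.cosh (FA p l g) - Real.cosh g := by linarith [C_le_XA hp hp1 l hg]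
  obtain ⟨h1, h2, h3⟩ := alg_T (sinh_FA_sq l g) (Real.one_le_cosh g) (C_le_XA hp hp1 l hg)
  have h4 := XC_A_le hp hp1 l hg
  unfold FAl
  rw [div_pow, mul_pow, mul_pow, div_mul_eq_mul_div, div_div,
    div_le_div_iff₀ (by positivity) (by positivity)]
  have h5 : p * (Real.cosh (FA p l g) - Real.cosh g) ^ 2 ≤ 2 * RR p l g *
      Real.sinh (FA p l g) ^ 2 := by
    calc p * (Real.cosh (FA p l g) - Real.cosh g) ^ 2 =
        (p * (Real.cosh (FA p l g) - Real.cosh g)) * (Real.cosh (FA p l g) - Real.cosh g) := by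
          ring
      _ ≤ (2 * RR p l g) * Real.sinh (FA p l g) ^ 2 :=
        mul_le_mul h4 (by linarith) hXC0 (by positivity)
  have h6 : 0 ≤ rh l ^ 2 * RR p l g := by positivity
  nlinarith [mul_le_mul_of_nonneg_left h5 h6]

theorem FBl_sq_le (l : ℝ) {g : ℝ} (hg : 0 < g) :
    FBl p l g ^ 2 ≤ 2 / (1 - p) * rh l ^ 2 / RR p l g := by
  have hq : (0 : ℝ) < 1 - p := by linarith
  have hR := RR_pos hp hp1 l hg
  have hT := sinh_FB_pos hp hp1 l hg
  have hXC0 : 0 ≤ Real.cosh (FB p l g) - Real.cosh g := by linarith [C_le_XB hp hp1 l hg]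
  obtain ⟨h1, h2, h3⟩ := alg_T (sinh_FB_sq l g) (Real.one_le_cosh g) (C_le_XB hp hp1 l hg)
  have h4 := XC_B_le hp hp1 l hg
  unfold FBl
  rw [div_pow, neg_sq, mul_pow, mul_pow, div_mul_eq_mul_div, div_div,
    div_le_div_iff₀ (by positivity) (by positivity)]
  have h5 : (1 - p) * (Real.cosh (FB p l g) - Real.cosh g) ^ 2 ≤ 2 * RR p l g *
      Real.sinh (FB p l g) ^ 2 := by
    calc (1 - p) * (Real.cosh (FB p l g) - Real.cosh g) ^ 2 =
        ((1 - p) * (Real.cosh (FB p l g) - Real.cosh g)) *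
          (Real.cosh (FB p l g) - Real.cosh g) := by ring
      _ ≤ (2 * RR p l g) * Real.sinh (FB p l g) ^ 2 :=
        mul_le_mul h4 (by linarith) hXC0 (by positivity)
  have h6 : 0 ≤ rh l ^ 2 * RR p l g := by positivity
  nlinarith [mul_le_mul_of_nonneg_left h5 h6]

theorem FAg_sq_le (l : ℝ) {g : ℝ} (hg : 0 < g) :
    FAg p l g ^ 2 ≤ (Real.cosh g - rh l) ^ 2 / (1 - p) / RR p l g := by
  have hq : (0 : ℝ) < 1 - p := by linarith
  have hR := RR_pos hp hp1 l hg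
  have hT := sinh_FA_pos hp hp1 l hg
  have hS := Real.sinh_pos_iff.2 hg
  obtain ⟨h1, h2, h3⟩ := alg_T (sinh_FA_sq l g) (Real.one_le_cosh g) (C_le_XA hp hp1 l hg)
  have h4 := S_sq_A hp hp1 l hg
  unfold FAg
  rw [div_pow, mul_pow, mul_pow, div_div, div_le_div_iff₀ (by positivity) (by positivity)]
  have h5 : (1 - p) * Real.sinh g ^ 2 ≤ RR p l g * Real.sinh (FA p l g) ^ 2 := by
    nlinarith
  have h6 : 0 ≤ (Real.cosh g - rh l) ^ 2 * RR p l g := by positivity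
  nlinarith [mul_le_mul_of_nonneg_left h5 h6]

theorem FBg_sq_le (l : ℝ) {g : ℝ} (hg : 0 < g) :
    FBg p l g ^ 2 ≤ (4 / (1 - p) * Real.sinh g ^ 2 + 2 / p * rh l ^ 2) / RR p l g := by
  have hq : (0 : ℝ) < 1 - p := by linarith
  have hR := RR_pos hp hp1 l hg
  have hT := sinh_FB_pos hp hp1 l hg
  have hS := Real.sinh_pos_iff.2 hg
  have hXC0 : 0 ≤ Real.cosh (FB p l g) - Real.cosh g := by linarith [C_le_XB hp hp1 l hg]
  obtain ⟨h1, h2, h3⟩ := alg_T (sinh_FB_sq l g) (Real.one_le_cosh g) (C_le_XB hp hp1 l hg)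
  have h4 := S_sq_B hp hp1 l hg
  have h4' := XC_B_le hp hp1 l hg
  unfold FBg
  set X := Real.cosh (FB p l g) with hX
  set T := Real.sinh (FB p l g) with hT'
  set C := Real.cosh g with hC
  set S := Real.sinh g with hS'
  set R := RR p l g with hR'
  set ρ := rh l with hρ
  have e1 : (S * (X - C + ρ) / (R * T)) ^ 2 ≤
      2 * (S ^ 2 * ((X - C) ^ 2 / T ^ 2) / R ^ 2) + 2 * (ρ ^ 2 * (S ^ 2 / T ^ 2) / R ^ 2) := by
    have : (S * (X - C + ρ) / (R * T)) ^ 2 =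
        2 * (S ^ 2 * ((X - C) ^ 2 / T ^ 2) / R ^ 2) + 2 * (ρ ^ 2 * (S ^ 2 / T ^ 2) / R ^ 2) -
          (S * (X - C - ρ) / (R * T)) ^ 2 := by
      field_simp
      ring
    rw [this]
    have h7 := sq_nonneg (S * (X - C - ρ) / (R * T))
    linarith
  have e2 : (X - C) ^ 2 / T ^ 2 ≤ 2 / (1 - p) * R := by
    rw [div_le_iff₀ (by positivity), div_mul_eq_mul_div, div_mul_eq_mul_div, le_div_iff₀ hq]
    calc (X - C) ^ 2 * (1 - p) = ((1 - p) * (X - C)) * (X - C) := by ring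
      _ ≤ (2 * R) * T ^ 2 := mul_le_mul h4' (by linarith) hXC0 (by positivity)
  have e3 : S ^ 2 / T ^ 2 ≤ R / p := by
    rw [div_le_div_iff₀ (by positivity) hp]
    nlinarith
  calc (S * (X - C + ρ) / (R * T)) ^ 2
      ≤ 2 * (S ^ 2 * ((X - C) ^ 2 / T ^ 2) / R ^ 2) + 2 * (ρ ^ 2 * (S ^ 2 / T ^ 2) / R ^ 2) := e1
    _ ≤ 2 * (S ^ 2 * (2 / (1 - p) * R) / R ^ 2) + 2 * (ρ ^ 2 * (R / p) / R ^ 2) := by gcongr
    _ = (4 / (1 - p) * S ^ 2 + 2 / p * ρ ^ 2) / R := by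
      field_simp
      ring

end

/-! ### uniform forms on `0 < g ≤ 1`, `rho ≤ P` -/

theorem sinh_le_two_mul {g : ℝ} (h0 : 0 ≤ g) (h1 : g ≤ 1) : Real.sinh g ≤ 2 * g := by
  have hc : ∀ x ∈ Set.Ioo 0 g, Real.cosh x ≤ 2 := by
    intro x hx
    have h2 : Real.cosh x ≤ Real.cosh 1 := by
      rw [Real.cosh_le_cosh, abs_of_pos hx.1, abs_of_pos one_pos]
      linarith [hx.2]
    refine h2.trans ?_
    have h3 := Real.exp_one_lt_d9
    have h4 : Real.exp (-1) ≤ 1 := Real.exp_le_one_iff.2 (by norm_num)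
    rw [Real.cosh_eq]
    linarith
  rcases h0.eq_or_lt with h | h
  · rw [← h]
    simp
  · have h5 := exists_hasDerivAt_eq_slope Real.sinh Real.cosh h Real.continuous_sinh.continuousOn
      (fun x _ => Real.hasDerivAt_sinh x)
    obtain ⟨c, hc1, hc2⟩ := h5
    have h6 := hc c hc1
    rw [hc2, Real.sinh_zero, sub_zero, sub_zero, div_le_iff₀ h] at h6
    exact h6

theorem cosh_le_two {g : ℝ} (h0 : 0 ≤ g) (h1 : g ≤ 1) : Real.cosh g ≤ 2 := by
  have h2 : Real.cosh g ≤ Real.cosh 1 := by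
    rw [Real.cosh_le_cosh, abs_of_nonneg h0, abs_of_pos one_pos]
    exact h1
  refine h2.trans ?_
  have h3 := Real.exp_one_lt_d9
  have h4 : Real.exp (-1) ≤ 1 := Real.exp_le_one_iff.2 (by norm_num)
  rw [Real.cosh_eq]
  linarith

theorem RR_le {p : ℝ} (hp : 0 < p) (hp1 : p < 1) {l g P : ℝ} (hg : 0 < g) (hg1 : g ≤ 1)
    (hl : rh l ≤ P) : RR p l g ≤ P + 4 := by
  have hr := rh_pos l
  have hC := cosh_le_two hg.le hg1
  have hC1 := Real.one_le_cosh g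
  have hS := sinh_le_two_mul hg.le hg1
  have hS0 := Real.sinh_pos_iff.2 hg
  unfold RR
  rw [Real.sqrt_le_left (by linarith)]
  have h1 : (rh l - p * Real.cosh g) ^ 2 ≤ (P + 2) ^ 2 := by
    apply sq_le_sq'
    · nlinarith
    · nlinarith
  have h2 : p * (1 - p) ≤ 1 := by nlinarith
  have h3 : Real.sinh g ^ 2 ≤ 4 := by nlinarith
  have h4 : p * (1 - p) * Real.sinh g ^ 2 ≤ 4 := by
    have : 0 ≤ p * (1 - p) := by
      have : 0 < 1 - p := by linarith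
      positivity
    nlinarith
  nlinarith

theorem le_RR {p : ℝ} (hp : 0 < p) (hp1 : p < 1) :
    ∃ c : ℝ, 0 < c ∧ ∀ l g : ℝ, 0 < g → g ≤ 1 → c * (|rh l - p| + g) ≤ RR p l g := by
  have hq : 0 < 1 - p := by linarith
  refine ⟨p * (1 - p) / 4, by positivity, fun l g hg hg1 => ?_⟩
  have hS0 := Real.sinh_pos_iff.2 hg
  have hSg : g ≤ Real.sinh g := by
    have := Real.self_le_sinh_iff.2 hg.le
    exact this
  have hS2 := sinh_le_two_mul hg.le hg1
  have hC1 := Real.one_le_cosh g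
  have hCS : Real.cosh g - 1 ≤ Real.sinh g := by
    have h1 := Real.cosh_sq g
    nlinarith
  have hpq : 0 < p * (1 - p) := by positivity
  have hpq1 : p * (1 - p) ≤ 1 / 4 := by nlinarith [sq_nonneg (p - 1 / 2)]
  have hR0 := (RR_pos hp hp1 l hg).le
  have h1 := abs_le_RR hp hp1 l g
  have h2 : |rh l - p| ≤ |rh l - p * Real.cosh g| + p * (Real.cosh g - 1) := by
    have h3 : rh l - p = (rh l - p * Real.cosh g) + p * (Real.cosh g - 1) := by ring
    rw [h3]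
    refine (abs_add_le _ _).trans ?_
    rw [abs_of_nonneg (show 0 ≤ p * (Real.cosh g - 1) by
      have : 0 ≤ Real.cosh g - 1 := by linarith
      positivity)]
  have h4 : p * (1 - p) * Real.sinh g ≤ RR p l g := by
    apply le_of_sq_le_sq _ hR0
    rw [RR_sq hp hp1]
    have h5 : (p * (1 - p) * Real.sinh g) ^ 2 ≤ p * (1 - p) * Real.sinh g ^ 2 := by
      have : (p * (1 - p)) ^ 2 ≤ p * (1 - p) := by nlinarith
      nlinarith [sq_nonneg (Real.sinh g)]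
    nlinarith [sq_nonneg (rh l - p * Real.cosh g)]
  have h6 : |rh l - p| + g ≤ RR p l g + 2 * Real.sinh g := by
    have h7 : p * (Real.cosh g - 1) ≤ Real.sinh g := by nlinarith
    linarith
  calc p * (1 - p) / 4 * (|rh l - p| + g) ≤ p * (1 - p) / 4 * (RR p l g + 2 * Real.sinh g) := by
        gcongr
    _ = (p * (1 - p)) * RR p l g / 4 + (p * (1 - p) * Real.sinh g) / 2 := by ring
    _ ≤ (1 / 4) * RR p l g / 4 + RR p l g / 2 := by gcongr
    _ ≤ RR p l g := by linarith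

theorem bound_gll {p : ℝ} (hp : 0 < p) (hp1 : p < 1) {P : ℝ} (hP : 0 ≤ P) :
    ∀ l g : ℝ, 0 < g → g ≤ 1 → rh l ≤ P →
      |FAg p l g * FAll p l g| ≤ (2 * (2 + P) * (6 * P + 4)) * rh l * g / RR p l g ^ 3 ∧
      |FBg p l g * FBll p l g| ≤ (2 * (2 + P) * (6 * P + 4)) * rh l * g / RR p l g ^ 3 := by
  intro l g hg hg1 hl
  have hr := rh_pos l
  have hR := RR_pos hp hp1 l hg
  have hRP := RR_le hp hp1 hg hg1 hl
  have hC := cosh_le_two hg.le hg1
  have hC1 := Real.one_le_cosh g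
  have hS := sinh_le_two_mul hg.le hg1
  have hS0 := Real.sinh_pos_iff.2 hg
  have h5 : 1 + 5 * rh l / RR p l g ≤ (6 * P + 4) / RR p l g := by
    rw [le_div_iff₀ hR, add_mul, one_mul, div_mul_cancel₀ _ hR.ne']
    linarith
  constructor
  · refine (FAg_FAll_le hp hp1 l hg).trans ?_
    have h6 : |Real.cosh g - rh l| ≤ 2 + P := by
      rw [abs_le]
      constructor <;> linarith
    calc rh l * Real.sinh g * |Real.cosh g - rh l| / RR p l g ^ 2 * (1 + 5 * rh l / RR p l g)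
        ≤ rh l * (2 * g) * (2 + P) / RR p l g ^ 2 * ((6 * P + 4) / RR p l g) := by gcongr
      _ = (2 * (2 + P) * (6 * P + 4)) * rh l * g / RR p l g ^ 3 := by
        field_simp
  · refine (FBg_FBll_le hp hp1 l hg).trans ?_
    calc rh l * Real.sinh g * (1 + rh l) / RR p l g ^ 2 * (1 + 5 * rh l / RR p l g)
        ≤ rh l * (2 * g) * (2 + P) / RR p l g ^ 2 * ((6 * P + 4) / RR p l g) := by
          gcongr
          linarith
      _ = (2 * (2 + P) * (6 * P + 4)) * rh l * g / RR p l g ^ 3 := by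
        field_simp

end Pool.Agent.H62.EH
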