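import Pool.Agent.H24.EH.Defs
import Pool.Agent.H97.EH.S4

/-!
# EHP, block C: comparison of `q`, error term
-/

set_option autoImplicit false

open MeasureTheory Set Filter Topology
open scoped Real Interval

noncomputable section

namespace Pool.Agent.H62.EH

open Pool.Agent.H24.EH
open Pool.Agent.H15.EH (FData U)

/-! ### elementary facts -/

theorem rho_pos (l : ℝ) : 0 < rho l := by unfold rho; positivity

theorem cosh_Mx (l : ℝ) : Real.cosh (Mx l) = 2 * rho l + 1 :=
  Real.cosh_arcosh (by linarith [rho_pos l])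

theorem Mx_pos (l : ℝ) : 0 < Mx l := Real.arcosh_pos (by linarith [rho_pos l])

theorem rho_mono {l l' : ℝ} (h : l ≤ l') : rho l ≤ rho l' := by
  unfold rho
  have := Real.exp_le_exp.2 h
  linarith

theorem Mx_mono {l l' : ℝ} (h : l ≤ l') : Mx l ≤ Mx l' := by
  unfold Mx
  rw [Real.arcosh_le_arcosh (by linarith [rho_pos l]) (by linarith [rho_pos l'])]
  linarith [rho_mono h]

theorem cosh_le_of_le_Mx {l t : ℝ} (h0 : 0 ≤ t) (h : t ≤ Mx l) :
    Real.cosh t ≤ 2 * rho l + 1 := by
  rw [← cosh_Mx, Real.cosh_le_cosh, abs_of_nonneg h0, abs_of_pos (Mx_pos l)]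
  exact h

theorem cosh_mn (l : ℝ) : Real.cosh (mn l) = max 1 (2 * rho l - 1) :=
  Real.cosh_arcosh (le_max_left _ _)

theorem mn_nonneg (l : ℝ) : 0 ≤ mn l := Real.arcosh_nonneg (le_max_left _ _)

theorem le_cosh_of_mn_le {l t : ℝ} (h : mn l ≤ t) : 2 * rho l - 1 ≤ Real.cosh t := by
  have h0 := mn_nonneg l
  have h1 : Real.cosh (mn l) ≤ Real.cosh t := by
    rw [Real.cosh_le_cosh, abs_of_nonneg h0, abs_of_nonneg (h0.trans h)]
    exact h
  rw [cosh_mn] at h1
  exact (le_max_right _ _).trans h1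

theorem rho_log4 : rho (Real.log 4) = 1 := by
  unfold rho
  rw [Real.exp_log (by norm_num)]
  norm_num

theorem rho_log8 : rho (Real.log 8) = 2 := by
  unfold rho
  rw [Real.exp_log (by norm_num)]
  norm_num

theorem one_le_mn {l : ℝ} (h : Real.log 8 ≤ l) : 1 ≤ mn l := by
  have h1 : 2 ≤ rho l := by
    rw [← rho_log8]
    exact rho_mono h
  have h2 : Real.cosh 1 ≤ Real.cosh (mn l) := by
    rw [cosh_mn]
    refine le_trans ?_ (le_max_right _ _)
    have h3 := Real.exp_one_lt_d9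
    have h4 : Real.exp (-1) ≤ 1 := Real.exp_le_one_iff.2 (by norm_num)
    rw [Real.cosh_eq]
    linarith
  rw [Real.cosh_le_cosh, abs_of_pos one_pos, abs_of_nonneg (mn_nonneg l)] at h2
  exact h2

/-- `J y l` is continuous -/
theorem continuous_J {y : ℝ × ℝ → ℝ} (hy : Continuous y) (l : ℝ) : Continuous (J y l) := by
  unfold J
  apply intervalIntegral.continuous_parametric_intervalIntegral_of_continuous'
  have : Continuous (fun x : ℝ × ℝ => max (y (l, x.2) - x.1) 0) := by fun_prop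
  exact this

/-- the elementary estimate at the singular point -/
theorem err_elem {K K' c η g t x r ρ : ℝ} (hK : 0 ≤ K) (hK' : 0 ≤ K') (hc : 0 < c) (hc1 : c ≤ 1)
    (hη : 0 < η) (hg2 : 2 * η ≤ g) (hg4 : g ≤ 4 * η) (ht0 : 0 ≤ t) (ht : t ≤ 3 * η) (hx : x ≠ 0)
    (hr : c * |x| ≤ r) (hρ2 : ρ ≤ 2) :
    K * ρ * g / (r + g) ^ 3 * (K' * (x ^ 2 + t ^ 2)) ≤
      18 * K * K' / c ^ 3 * (Real.sqrt η * |x| ^ (-(1 / 2) : ℝ)) := by
  have hx0 : 0 < |x| := abs_pos.2 hx
  have hr0 : 0 ≤ r := le_trans (by positivity) hr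
  have hg0 : 0 < g := by linarith
  have h1 : c * (|x| + 2 * η) ≤ r + g := by nlinarith
  have h2 : K * ρ * g / (r + g) ^ 3 ≤ K * 2 * (4 * η) / (c * (|x| + 2 * η)) ^ 3 := by
    gcongr
  have h3 : x ^ 2 + t ^ 2 ≤ 9 / 4 * (|x| + 2 * η) ^ 2 := by
    have h4 : t ^ 2 ≤ (3 * η) ^ 2 := by gcongr
    have h5 : x ^ 2 = |x| ^ 2 := (sq_abs x).symm
    rw [h5]
    nlinarith [mul_pos hx0 hη]
  have h6 : K * ρ * g / (r + g) ^ 3 * (K' * (x ^ 2 + t ^ 2)) ≤
      K * 2 * (4 * η) / (c * (|x| + 2 * η)) ^ 3 * (K' * (9 / 4 * (|x| + 2 * η) ^ 2)) := by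
    gcongr
  refine h6.trans ?_
  have h7 : K * 2 * (4 * η) / (c * (|x| + 2 * η)) ^ 3 * (K' * (9 / 4 * (|x| + 2 * η) ^ 2)) =
      18 * K * K' / c ^ 3 * (η / (|x| + 2 * η)) := by
    have : |x| + 2 * η ≠ 0 := by positivity
    field_simp
    ring
  rw [h7]
  have h8 : η / (|x| + 2 * η) ≤ Real.sqrt η * |x| ^ (-(1 / 2) : ℝ) := by
    rw [Real.rpow_neg hx0.le, ← Real.sqrt_eq_rpow, ← div_eq_mul_inv,
      div_le_div_iff₀ (by positivity) (Real.sqrt_pos.2 hx0)]
    have hs := Real.mul_self_sqrt hη.le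
    have hs2 := Real.mul_self_sqrt hx0.le
    have hp := Real.sqrt_pos.2 hη
    have hp2 := Real.sqrt_pos.2 hx0
    set a := Real.sqrt η
    set b := Real.sqrt |x|
    rw [← hs, ← hs2]
    have : 0 ≤ a * ((a - b) ^ 2 + a ^ 2 + a * b) := by positivity
    nlinarith
  gcongr

/-- `|rho l - p| ≥ c |l - log (4 p)|` on `l₁ ≤ l` -/
theorem rho_sub_ge {p : ℝ} (hp : 0 < p) (hp1 : p < 1) (l₁ : ℝ) :
    ∃ c, 0 < c ∧ c ≤ 1 ∧ ∀ l, l₁ ≤ l → c * |l - Real.log (4 * p)| ≤ |rho l - p| := by
  set l0 := Real.log (4 * p) with hl0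
  have hexp : Real.exp l0 = 4 * p := Real.exp_log (by positivity)
  have hX : 0 ≤ |l₁ - l0| := abs_nonneg _
  refine ⟨p / (1 + |l₁ - l0|), by positivity, ?_, fun l hl => ?_⟩
  · rw [div_le_one (by positivity)]
    linarith
  · have hr : rho l = p * Real.exp (l - l0) := by
      unfold rho
      rw [Real.exp_sub, hexp]
      field_simp
    rcases le_total l0 l with h | h
    · have h1 : 0 ≤ l - l0 := by linarith
      have h2 := Real.add_one_le_exp (l - l0)
      have h3 : 0 ≤ rho l - p := by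
        rw [hr]
        nlinarith
      rw [abs_of_nonneg h1, abs_of_nonneg h3, hr]
      have h4 : p / (1 + |l₁ - l0|) ≤ p := div_le_self hp.le (by linarith)
      nlinarith
    · have h1 : l - l0 ≤ 0 := by linarith
      have h2 : l0 - l ≤ |l₁ - l0| := by
        rw [abs_of_nonpos (by linarith)]
        linarith
      have h3 := Real.add_one_le_exp (l0 - l)
      have h4 : Real.exp (l - l0) * (l0 - l + 1) ≤ 1 := by
        have h5 : Real.exp (l - l0) * Real.exp (l0 - l) = 1 := by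
          rw [← Real.exp_add]
          simp
        calc Real.exp (l - l0) * (l0 - l + 1) ≤ Real.exp (l - l0) * Real.exp (l0 - l) := by
              gcongr
          _ = 1 := h5
      have h6 := Real.exp_pos (l - l0)
      have h7 : rho l - p ≤ 0 := by
        rw [hr]
        have : Real.exp (l - l0) ≤ 1 := Real.exp_le_one_iff.2 h1
        nlinarith
      rw [abs_of_nonpos h1, abs_of_nonpos h7, hr, div_mul_eq_mul_div, div_le_iff₀ (by positivity)]
      set E := Real.exp (l - l0)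
      set y := l0 - l with hy
      set X := |l₁ - l0|
      have hy0 : 0 ≤ y := by linarith
      have e1 : -(l - l0) = y := by ring
      rw [e1]
      have h8 : (y + 1) * (1 - E) ≥ y := by nlinarith
      have h9 : 0 ≤ 1 - E := by
        have : E ≤ 1 := Real.exp_le_one_iff.2 h1
        linarith
      have h10 : y ≤ (1 + X) * (1 - E) := by nlinarith
      nlinarith

/-! ### continuity of `q (l, y (l, φ))` -/

theorem qf_max {Fl Fg Fll Flg Fgg : ℝ → ℝ → ℝ} {η : ℝ}
    (hB : ∀ t, t ≤ η → Bp η t = 2 * η ∧ B1 η t = 0 ∧ B2 η t = 0) (l t : ℝ) :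
    qf Fl Fg Fll Flg Fgg η l t = qf Fl Fg Fll Flg Fgg η l (max t η) := by
  rcases le_total η t with h | h
  · rw [max_eq_left h]
  · rw [max_eq_right h]
    unfold qf Pool.Agent.H15.EH.q
    have hB' := hB η le_rfl
    have h1 : ∀ s ∈ uIcc η t, (t - s) * Pool.Agent.H15.EH.D (FFll Fll η) (FFlg Flg η)
        (FFgg Fg Fgg η) l s = 0 := by
      intro s hs
      rw [uIcc_of_ge h] at hs
      have h2 := hB s hs.2
      unfold Pool.Agent.H15.EH.D FFll FFlg FFgg
      rw [h2.2.1, h2.2.2]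
      ring
    have h3 : ∫ s in η..t, (t - s) * Pool.Agent.H15.EH.D (FFll Fll η) (FFlg Flg η)
        (FFgg Fg Fgg η) l s = 0 := by
      rw [intervalIntegral.integral_congr (g := fun _ => (0 : ℝ)) h1]
      simp
    rw [h3, intervalIntegral.integral_same]
    unfold FFg
    rw [hB'.2.1]
    ring

theorem continuous_qf_comp {F Fl Fg Fll Flg Fgg Fllg : ℝ → ℝ → ℝ} {η : ℝ} (hη : 0 < η)
    (hFF : FData (FF F η) (FFl Fl η) (FFg Fg η) (FFll Fll η) (FFlg Flg η) (FFgg Fg Fgg η)
      (FFllg Fllg η))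
    (hB : ∀ t, t ≤ η → Bp η t = 2 * η ∧ B1 η t = 0 ∧ B2 η t = 0)
    {y : ℝ × ℝ → ℝ} (hy : Continuous y) :
    Continuous (fun x : ℝ × ℝ => qf Fl Fg Fll Flg Fgg η x.1 (y x)) := by
  have h1 : (fun x : ℝ × ℝ => qf Fl Fg Fll Flg Fgg η x.1 (y x)) =
      fun x : ℝ × ℝ => qf Fl Fg Fll Flg Fgg η x.1 (max (y x) η) :=
    funext fun x => qf_max hB x.1 (y x)
  rw [h1]
  have h2 := hFF.cont_q hη
  have h3 : Continuous (fun x : ℝ × ℝ => ((x.1, max (y x) η) : ℝ × ℝ)) := by fun_prop
  exact h2.comp_continuous h3 fun x => lt_of_lt_of_le hη (le_max_right _ _)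

/-- comparison of `q` and the error term, from the other blocks -/
theorem compare_of {n : ℕ} {a : Fin n → ℂ} {p c : ℝ} (hT : Touch a p)
    {F Fl Fg Fll Flg Fgg Fllg : ℝ → ℝ → ℝ} (hF : FHyp p c F Fl Fg Fll Flg Fgg Fllg)
    (hBp : ∀ η : ℝ, 0 < η →
      (∀ t, HasDerivAt (Bp η) (B1 η t) t) ∧ (∀ t, HasDerivAt (B1 η) (B2 η t) t) ∧
      Continuous (B2 η) ∧ (∀ t, t ≤ η → Bp η t = 2 * η ∧ B1 η t = 0 ∧ B2 η t = 0) ∧
      (∀ t, 3 * η ≤ t → Bp η t = t ∧ B1 η t = 1 ∧ B2 η t = 0) ∧
      (∀ t, 0 ≤ B1 η t ∧ B1 η t ≤ 1 ∧ 0 ≤ B2 η t ∧ B2 η t ≤ 1 / η) ∧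
      (∀ t, 2 * η ≤ Bp η t ∧ t ≤ Bp η t ∧ Bp η t ≤ max t (2 * η) + η))
    (hFF : ∀ η : ℝ, 0 < η → FData (FF F η) (FFl Fl η) (FFg Fg η) (FFll Fll η) (FFlg Flg η)
      (FFgg Fg Fgg η) (FFllg Fllg η))
    (hyQ : YData (yQ a)) (hyV : YData yV)
    (hlay : ∀ (y : ℝ × ℝ → ℝ), YData y → ∀ η : ℝ, 0 < η → ∀ l T : ℝ, η ≤ T →
      (∀ φ, y (l, φ) ≤ T) → (∫ φ in (0 : ℝ)..2 * π, qf Fl Fg Fll Flg Fgg η l (y (l, φ))) =
      2 * π * Fl l (2 * η) ^ 2 + ∫ t in η..T, 2 * wf Fg Fll Flg Fgg η l t * J y l t)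
    (hD1 : ∀ l t : ℝ, 0 ≤ t → 0 ≤ Dd a l t)
    (hQM : ∀ l φ : ℝ, yQ a (l, φ) ≤ Mx l) (hVM : ∀ l φ : ℝ, yV (l, φ) ≤ Mx l)
    (hD3 : ∀ l t : ℝ, Real.log 4 ≤ l → t ≤ mn l → Dd a l t = 0)
    (hD4 : ∀ l₁ : ℝ, ∃ K, ∀ l t, l₁ ≤ l → 0 ≤ t → t ≤ 1 →
      Dd a l t ≤ K * ((l - Real.log (4 * p)) ^ 2 + t ^ 2))
    (l₁ l₂ : ℝ) (hl : l₁ ≤ l₂) (ε : ℝ) (hε : 0 < ε) : ∃ η₀, 0 < η₀ ∧ ∀ η, 0 < η → η ≤ η₀ →
    (∫ l in l₁..l₂, ∫ φ in (0 : ℝ)..2 * π, qf Fl Fg Fll Flg Fgg η l (yQ a (l, φ))) ≤
      (∫ l in l₁..l₂, ∫ φ in (0 : ℝ)..2 * π, qf Fl Fg Fll Flg Fgg η l (yV (l, φ))) + ε := by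
  obtain ⟨K0, hK0⟩ := hF.err
  obtain ⟨K1, hK1⟩ := hD4 l₁
  obtain ⟨c0, hc0, hc01, hc⟩ := rho_sub_ge hT.p0 hT.p1 l₁
  set K : ℝ := |K0| with hK
  set K' : ℝ := |K1| with hK'
  have hKn : 0 ≤ K := abs_nonneg _
  have hKn' : 0 ≤ K' := abs_nonneg _
  set l0 := Real.log (4 * p) with hl0
  set A : ℝ := 18 * K * K' / c0 ^ 3 with hA
  have hA0 : 0 ≤ A := by positivity
  set I : ℝ := ∫ l in l₁..l₂, |l - l0| ^ (-(1 / 2) : ℝ) with hI
  have hI0 : 0 ≤ I := intervalIntegral.integral_nonneg hl fun l _ => by positivity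
  have hM1 := Mx_pos l₁
  refine ⟨min (min (Mx l₁ / 4) (1 / 4)) ((ε / (2 * A * I + 1)) ^ 2), by positivity,
    fun η hη hη0 => ?_⟩
  have hηM : 4 * η ≤ Mx l₁ := by
    have := hη0.trans ((min_le_left _ _).trans (min_le_left _ _))
    linarith
  have hη1 : 4 * η ≤ 1 := by
    have := hη0.trans ((min_le_left _ _).trans (min_le_right _ _))
    linarith
  have hηε : η ≤ (ε / (2 * A * I + 1)) ^ 2 := hη0.trans (min_le_right _ _)
  obtain ⟨b1, b2, b3, b4, b5, b6, b7⟩ := hBp η hη
  have hdata := hFF η hη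
  -- the pointwise (in `l`) estimate
  have key : ∀ l, l₁ ≤ l → l ≠ l0 →
      (∫ φ in (0 : ℝ)..2 * π, qf Fl Fg Fll Flg Fgg η l (yQ a (l, φ))) ≤
      (∫ φ in (0 : ℝ)..2 * π, qf Fl Fg Fll Flg Fgg η l (yV (l, φ))) +
        2 * (A * (Real.sqrt η * |l - l0| ^ (-(1 / 2) : ℝ))) := by
    intro l hl1 hll0
    set e : ℝ := A * (Real.sqrt η * |l - l0| ^ (-(1 / 2) : ℝ)) with he
    have he0 : 0 ≤ e := by positivity
    have hMl : 4 * η ≤ Mx l := hηM.trans (Mx_mono hl1)
    have hηT : η ≤ Mx l := by linarith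
    rw [hlay _ hyQ η hη l (Mx l) hηT (hQM l), hlay _ hyV η hη l (Mx l) hηT (hVM l)]
    -- continuity in `t`
    have cw : ContinuousOn (fun t => wf Fg Fll Flg Fgg η l t) (Ioi 0) :=
      Pool.Agent.H15.EH.cont_slice (f := fun l t => wf Fg Fll Flg Fgg η l t) hdata.cont_D l
    have hsub : [[η, Mx l]] ⊆ Ioi 0 := by
      intro t ht
      rw [uIcc_of_le hηT] at ht
      exact lt_of_lt_of_le hη ht.1
    have cw' := cw.mono hsub
    have cJQ := (continuous_J hyQ.cont l).continuousOn (s := [[η, Mx l]])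
    have cJV := (continuous_J hyV.cont l).continuousOn (s := [[η, Mx l]])
    have iQ : IntervalIntegrable (fun t => 2 * wf Fg Fll Flg Fgg η l t * J (yQ a) l t) volume
        η (Mx l) := ((continuousOn_const.mul cw').mul cJQ).intervalIntegrable
    have iV : IntervalIntegrable (fun t => 2 * wf Fg Fll Flg Fgg η l t * J yV l t) volume
        η (Mx l) := ((continuousOn_const.mul cw').mul cJV).intervalIntegrable
    have iB : IntervalIntegrable (fun t => 2 * e * B2 η t) volume η (Mx l) :=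
      (continuous_const.mul b3).intervalIntegrable _ _
    -- the estimate of the integrand
    have hpt : ∀ t ∈ Icc η (Mx l), 2 * wf Fg Fll Flg Fgg η l t * J (yQ a) l t ≤
        2 * wf Fg Fll Flg Fgg η l t * J yV l t + 2 * e * B2 η t := by
      intro t ht
      have ht0 : 0 < t := lt_of_lt_of_le hη ht.1
      have hDd : J (yQ a) l t = J yV l t - Dd a l t := by
        unfold Dd
        ring
      have hBn := b6 t
      have hD0 := hD1 l t ht0.le
      rw [hDd]
      have hB2e : 0 ≤ 2 * e * B2 η t := by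
        have := hBn.2.2.1
        positivity
      suffices h : -(wf Fg Fll Flg Fgg η l t * Dd a l t) ≤ e * B2 η t by linarith
      rcases hD0.eq_or_lt with h0 | h0
      · rw [← h0]
        have := hBn.2.2.1
        have : 0 ≤ e * B2 η t := by positivity
        simpa using this
      -- in the range
      set g := Bp η t with hg
      have hgb := b7 t
      have hg0 : 0 < g := by linarith [hgb.1]
      have hrange : |Real.cosh g - 2 * rho l| ≤ 1 := by
        have hup : Real.cosh g ≤ 2 * rho l + 1 := by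
          apply cosh_le_of_le_Mx hg0.le
          rcases le_total (3 * η) t with h3 | h3
          · rw [hg, (b5 t h3).1]
            exact ht.2
          · have : max t (2 * η) ≤ 3 * η := max_le h3 (by linarith)
            have := hgb.2.2
            linarith
        have hlo : 2 * rho l - 1 ≤ Real.cosh g := by
          rcases lt_or_ge l (Real.log 4) with h4 | h4
          · have := rho_mono h4.le
            rw [rho_log4] at this
            have := Real.one_le_cosh g
            linarith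
          · have h5 : mn l < t := by
              by_contra hcon
              push Not at hcon
              have := hD3 l t h4 hcon
              linarith
            exact le_cosh_of_mn_le (h5.le.trans hgb.2.1)
        rw [abs_le]
        constructor <;> linarith
      have hsign := hF.sign l g hg0 hrange
      have hw : wf Fg Fll Flg Fgg η l t = B1 η t ^ 2 * (Flg l g ^ 2 - Fll l g * Fgg l g) -
          B2 η t * (Fll l g * Fg l g) := by
        unfold wf FFlg FFll FFgg
        ring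
      rw [hw]
      have h1 : 0 ≤ B1 η t ^ 2 * (Flg l g ^ 2 - Fll l g * Fgg l g) * Dd a l t := by positivity
      have h2 : B2 η t * (Fll l g * Fg l g) * Dd a l t ≤
          B2 η t * (|Fll l g * Fg l g| * Dd a l t) := by
        rw [mul_assoc]
        have := hBn.2.2.1
        have := le_abs_self (Fll l g * Fg l g)
        gcongr
      have h3 : B2 η t * (|Fll l g * Fg l g| * Dd a l t) ≤ B2 η t * e := by
        rcases le_total (3 * η) t with h3 | h3
        · rw [(b5 t h3).2.2]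
          simp
        · apply mul_le_mul_of_nonneg_left _ hBn.2.2.1
          have hg4 : g ≤ 4 * η := by
            have : max t (2 * η) ≤ 3 * η := max_le h3 (by linarith)
            have := hgb.2.2
            linarith
          have hg1 : g ≤ 1 := by linarith
          have ht1 : t ≤ 1 := by linarith
          rcases lt_or_ge (Real.log 8) l with h8 | h8
          · exfalso
            have h9 := hD3 l t (le_trans (Real.log_le_log (by norm_num) (by norm_num)) h8.le)
              (ht1.trans (one_le_mn h8.le))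
            linarith
          · have hρ := rho_pos l
            have hρ2 : rho l ≤ 2 := by
              have := rho_mono h8
              rwa [rho_log8] at this
            have hρg : rho l ≤ Real.cosh g := by
              have := (abs_le.1 hrange).1
              have := Real.one_le_cosh g
              linarith
            have e1 := hK0 l g hρg hg0 hg1
            have e2 := hK1 l t hl1 ht0.le ht1
            have e3 : K0 * rho l * g / (|rho l - p| + g) ^ 3 ≤
                K * rho l * g / (|rho l - p| + g) ^ 3 := by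
              have := le_abs_self K0
              have := abs_nonneg (rho l - p)
              gcongr
            have e4 : K1 * ((l - l0) ^ 2 + t ^ 2) ≤ K' * ((l - l0) ^ 2 + t ^ 2) := by
              have := le_abs_self K1
              gcongr
            have hR0 : 0 ≤ K * rho l * g / (|rho l - p| + g) ^ 3 := by
              have := abs_nonneg (rho l - p)
              positivity
            calc |Fll l g * Fg l g| * Dd a l t ≤
                  K * rho l * g / (|rho l - p| + g) ^ 3 * (K' * ((l - l0) ^ 2 + t ^ 2)) :=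
                  mul_le_mul (e1.trans e3) (e2.trans e4) h0.le hR0
              _ ≤ e := by
                rw [he, hA]
                exact err_elem hKn hKn' hc0 hc01 hη hgb.1 hg4 ht0.le h3 (sub_ne_zero.2 hll0)
                  (hc l hl1) hρ2
      linarith
    have hint : ∫ t in η..Mx l, 2 * wf Fg Fll Flg Fgg η l t * J (yQ a) l t ≤
        ∫ t in η..Mx l, (2 * wf Fg Fll Flg Fgg η l t * J yV l t + 2 * e * B2 η t) :=
      intervalIntegral.integral_mono_on hηT iQ (iV.add iB) hpt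
    rw [intervalIntegral.integral_add iV iB] at hint
    have hB2 : ∫ t in η..Mx l, 2 * e * B2 η t ≤ 2 * e := by
      rw [intervalIntegral.integral_const_mul]
      have h1 : ∫ t in η..Mx l, B2 η t = B1 η (Mx l) - B1 η η :=
        intervalIntegral.integral_eq_sub_of_hasDerivAt (fun t _ => b2 t)
          (b3.intervalIntegrable _ _)
      rw [h1]
      have h2 := b6 (Mx l)
      have h3 := b6 η
      have : B1 η (Mx l) - B1 η η ≤ 1 := by linarith [h2.2.1, h3.1]
      nlinarith
    linarith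
  -- integrate in `l`
  have cQ := continuous_qf_comp hη hdata b4 hyQ.cont
  have cV := continuous_qf_comp hη hdata b4 hyV.cont
  have cQ' : Continuous (fun l => ∫ φ in (0 : ℝ)..2 * π, qf Fl Fg Fll Flg Fgg η l
      (yQ a (l, φ))) :=
    intervalIntegral.continuous_parametric_intervalIntegral_of_continuous' cQ _ _
  have cV' : Continuous (fun l => ∫ φ in (0 : ℝ)..2 * π, qf Fl Fg Fll Flg Fgg η l
      (yV (l, φ))) :=
    intervalIntegral.continuous_parametric_intervalIntegral_of_continuous' cV _ _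
  have iE : IntervalIntegrable (fun l => 2 * (A * (Real.sqrt η * |l - l0| ^ (-(1 / 2) : ℝ))))
      volume l₁ l₂ := by
    have := (((Pool.Agent.H97.EH.s4_int_l l0 l₁ l₂).const_mul (Real.sqrt η)).const_mul
      A).const_mul 2
    exact this
  have hmono : (∫ l in l₁..l₂, ∫ φ in (0 : ℝ)..2 * π, qf Fl Fg Fll Flg Fgg η l (yQ a (l, φ))) ≤
      ∫ l in l₁..l₂, ((∫ φ in (0 : ℝ)..2 * π, qf Fl Fg Fll Flg Fgg η l (yV (l, φ))) +
        2 * (A * (Real.sqrt η * |l - l0| ^ (-(1 / 2) : ℝ)))) := by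
    refine intervalIntegral.integral_mono_ae_restrict hl (cQ'.intervalIntegrable _ _)
      ((cV'.intervalIntegrable _ _).add iE) ?_
    have h1 : ∀ᵐ l ∂(volume.restrict (Icc l₁ l₂)), l ≠ l0 := by
      apply ae_restrict_of_ae
      rw [ae_iff]
      simp
    have h2 : ∀ᵐ l ∂(volume.restrict (Icc l₁ l₂)), l ∈ Icc l₁ l₂ :=
      ae_restrict_mem measurableSet_Icc
    filter_upwards [h1, h2] with l h3 h4
    exact key l h4.1 h3
  refine hmono.trans ?_
  rw [intervalIntegral.integral_add (cV'.intervalIntegrable _ _) iE]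
  have hE : ∫ l in l₁..l₂, 2 * (A * (Real.sqrt η * |l - l0| ^ (-(1 / 2) : ℝ))) =
      2 * A * I * Real.sqrt η := by
    rw [intervalIntegral.integral_const_mul, intervalIntegral.integral_const_mul,
      intervalIntegral.integral_const_mul]
    ring
  rw [hE]
  have hs : Real.sqrt η ≤ ε / (2 * A * I + 1) := by
    rw [Real.sqrt_le_left (by positivity)]
    exact hηε
  have hfin : 2 * A * I * Real.sqrt η ≤ ε := by
    have h0 : 0 ≤ 2 * A * I := by positivity
    calc 2 * A * I * Real.sqrt η ≤ 2 * A * I * (ε / (2 * A * I + 1)) := by gcongr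
      _ ≤ ε := by
        rw [mul_div_assoc', div_le_iff₀ (by positivity)]
        nlinarith
  linarith

end Pool.Agent.H62.EH
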